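import Pool.Agent.H11.NZ.Targets

/-!
# Minimal covering normal subgroups exist
-/

set_option autoImplicit false

open Equiv (Perm)

namespace Pool.Agent.H14.NZ.XE

open Pool.Agent.H11.NZ Pool.Agent.H11.NY

theorem top_comm {Ω : Type} [Fintype Ω] [DecidableEq Ω] (h : 5 ≤ Fintype.card Ω) :
    ⁅(⊤ : Subgroup (alternatingGroup Ω)), (⊤ : Subgroup (alternatingGroup Ω))⁆ = ⊤ := by
  have := commutator_alternatingGroup_eq_top (α := Ω) (by rw [Nat.card_eq_fintype_card]; exact h)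
  rw [← commutator_def]
  exact this

/-- subgroups of `X` normalised by `X` that cover -/
def Cov {L Ω : Type} [Group L] [Fintype Ω] [DecidableEq Ω] (ψ : L →* alternatingGroup Ω)
    (X A : Subgroup L) : Prop :=
  A ≤ X ∧ (∀ x ∈ X, ∀ y ∈ A, x * y * x⁻¹ ∈ A) ∧ A.map ψ = ⊤

theorem cov_inf {L Ω : Type} [Group L] [Fintype Ω] [DecidableEq Ω]
    (ψ : L →* alternatingGroup Ω) (X A B : Subgroup L) (h5 : 5 ≤ Fintype.card Ω)
    (hA : Cov ψ X A) (hB : Cov ψ X B) : Cov ψ X (A ⊓ B) := by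
  refine ⟨inf_le_left.trans hA.1, fun x hx y hy => ⟨hA.2.1 x hx y hy.1, hB.2.1 x hx y hy.2⟩, ?_⟩
  have h1 : ⁅A, B⁆ ≤ A ⊓ B := by
    rw [Subgroup.commutator_le]
    intro a ha b hb
    refine ⟨?_, ?_⟩
    · have h2 := hA.2.1 b (hB.1 hb) a⁻¹ (A.inv_mem ha)
      have h3 : a * b * a⁻¹ * b⁻¹ = a * (b * a⁻¹ * b⁻¹) := by
        group
      rw [commutatorElement_def, h3]
      exact A.mul_mem ha h2
    · have h2 := hB.2.1 a (hA.1 ha) b hb
      rw [commutatorElement_def]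
      exact B.mul_mem h2 (B.inv_mem hb)
  rw [eq_top_iff, ← top_comm h5]
  calc ⁅(⊤ : Subgroup (alternatingGroup Ω)), (⊤ : Subgroup (alternatingGroup Ω))⁆ =
        (⁅A, B⁆).map ψ := by
        rw [Subgroup.map_commutator, hA.2.2, hB.2.2]
    _ ≤ _ := Subgroup.map_mono h1

theorem cov_conj {L Ω : Type} [Group L] [Fintype Ω] [DecidableEq Ω]
    (ψ : L →* alternatingGroup Ω) (X A : Subgroup L) (hX : X.Normal) (hA : Cov ψ X A) (g : L) : Cov ψ X (A.map (MulAut.conj g).toMonoidHom) := by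
  refine ⟨?_, ?_, ?_⟩
  · rintro _ ⟨a, ha, rfl⟩
    exact hX.conj_mem a (hA.1 ha) g
  · rintro x hx _ ⟨a, ha, rfl⟩
    refine ⟨(g⁻¹ * x * g) * a * (g⁻¹ * x * g)⁻¹, hA.2.1 _ ?_ a ha, ?_⟩
    · have := hX.conj_mem x hx g⁻¹
      rwa [inv_inv] at this
    · simp [MulAut.conj_apply, mul_assoc]
  · rw [eq_top_iff]
    intro t _
    have h1 : (ψ g)⁻¹ * t * ψ g ∈ A.map ψ := by rw [hA.2.2]; trivial
    obtain ⟨a, ha, hat⟩ := h1
    refine ⟨g * a * g⁻¹, ⟨a, ha, rfl⟩, ?_⟩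
    rw [map_mul, map_mul, hat, map_inv]
    group

theorem pf_xe : T_XE := by
  intro L Ω _ _ _ _ ψ h5 hs
  have htop : (⊤ : Subgroup L).map ψ = ⊤ := by
    rw [← MonoidHom.range_eq_map]
    exact MonoidHom.range_eq_top.mpr hs
  obtain ⟨X, hXm⟩ := Set.Finite.exists_minimal (s := {X : Subgroup L | X.Normal ∧ X.map ψ = ⊤})
    (Set.toFinite _) ⟨⊤, inferInstance, htop⟩
  refine ⟨X, hXm.prop.1, hXm.prop.2, ?_⟩
  intro M hMX hMn hMc
  obtain ⟨A, hAm⟩ := Set.Finite.exists_minimal (s := {A : Subgroup L | Cov ψ X A})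
    (Set.toFinite _) ⟨M, hMX, hMn, hMc⟩
  have hleast : ∀ B, Cov ψ X B → A ≤ B := by
    intro B hB
    have h1 : Cov ψ X (A ⊓ B) := cov_inf ψ X A B h5 hAm.prop hB
    exact (hAm.le_of_le h1 inf_le_left).trans inf_le_right
  have hN : A.Normal := by
    refine ⟨fun a ha g => ?_⟩
    have h1 := hleast _ (cov_conj ψ X A hXm.prop.1 hAm.prop g⁻¹) ha
    obtain ⟨b, hb, hba⟩ := h1
    have h2 : g * a * g⁻¹ = b := by
      rw [← hba]
      simp [mul_assoc]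
    rw [h2]
    exact hb
  have h3 : X ≤ A := hXm.le_of_le (y := A) ⟨hN, hAm.prop.2.2⟩ hAm.prop.1
  exact le_antisymm hMX (h3.trans (hleast M ⟨hMX, hMn, hMc⟩))

end Pool.Agent.H14.NZ.XE
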