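import Pool.Agent.H11.NZ.Targets

/-!
# Minimal covering subgroups exist and are perfect
-/

set_option autoImplicit false

open Equiv (Perm)

namespace Pool.Agent.H14.NZ.XP

open Pool.Agent.H11.NZ Pool.Agent.H11.NY

theorem top_comm {Ω : Type} [Fintype Ω] [DecidableEq Ω] (h : 5 ≤ Fintype.card Ω) :
    ⁅(⊤ : Subgroup (alternatingGroup Ω)), (⊤ : Subgroup (alternatingGroup Ω))⁆ = ⊤ := by
  have := commutator_alternatingGroup_eq_top (α := Ω) (by rw [Nat.card_eq_fintype_card]; exact h)
  rw [← commutator_def]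
  exact this

theorem pf_xp : T_XP := by
  intro L Ω _ _ _ ψ X h5 hX
  have hle : ⁅X, X⁆ ≤ X := by
    rw [Subgroup.commutator_le]
    intro a ha b hb
    exact X.mul_mem (X.mul_mem (X.mul_mem ha hb) (X.inv_mem ha)) (X.inv_mem hb)
  refine hX.2.2 _ hle ?_ ?_
  · intro x hx y hy
    have hn : (⁅X, X⁆ : Subgroup L).Normal := by
      have := hX.1
      infer_instance
    exact hn.conj_mem y hy x
  · rw [Subgroup.map_commutator, hX.2.1, top_comm h5]

end Pool.Agent.H14.NZ.XP
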